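import Pool.Agent.Helper49.RC.St
import Pool.Agent.Helper49.LT.Base

/-!
# Project RC, module RGN: the parameter `p` may be taken in the parallelogram `Reg b`
-/

open MeasureTheory Set Filter Metric

namespace Pool.Agent.Helper16.RC

open _root_.Helper97.CB _root_.Helper49.LT _root_.Helper49.RC

/-! ## a lemma on sublinear functions -/

section Sublinear

variable {H : ℂ → ℝ}

/-- the sum of the four values -/
def T4 (H : ℂ → ℝ) (A B q : ℂ) : ℝ := H (A + q) + H (-A + q) + H (B - q) + H (-B - q)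

theorem T4_negA (A B q : ℂ) : T4 H (-A) B q = T4 H A B q := by
  unfold T4; rw [neg_neg]; ring

theorem T4_negB (A B q : ℂ) : T4 H A (-B) q = T4 H A B q := by
  unfold T4; rw [neg_neg]; ring

theorem sub_comb (hadd : ∀ x y, H (x + y) ≤ H x + H y)
    (hsm : ∀ c : ℝ, 0 ≤ c → ∀ x, H ((c : ℂ) * x) = c * H x)
    {c d : ℝ} (hc : 0 ≤ c) (hd : 0 ≤ d) (x y : ℂ) :
    H ((c : ℂ) * x + (d : ℂ) * y) ≤ c * H x + d * H y := by
  have h := hadd ((c : ℂ) * x) ((d : ℂ) * y)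
  rwa [hsm c hc, hsm d hd] at h

theorem core (hadd : ∀ x y, H (x + y) ≤ H x + H y)
    (hsm : ∀ c : ℝ, 0 ≤ c → ∀ x, H ((c : ℂ) * x) = c * H x)
    (A B : ℂ) {α β s : ℝ} (hα : 0 ≤ α) (hβ : 0 ≤ β) (hab : α + β = 1) (hs : 1 ≤ s) :
    T4 H A B ((α : ℂ) * A + (β : ℂ) * B) ≤
      T4 H A B ((s : ℂ) * ((α : ℂ) * A + (β : ℂ) * B)) := by
  have hbe : β = 1 - α := by linarith
  have h1s : (0 : ℝ) < 1 + s := by linarith
  have h1c : (1 + (s : ℂ)) ≠ 0 := by
    have : ((1 + s : ℝ) : ℂ) ≠ 0 := by exact_mod_cast h1s.ne'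
    simpa using this
  set q : ℂ := (α : ℂ) * A + (β : ℂ) * B with hq
  have hbc : (β : ℂ) = 1 - (α : ℂ) := by rw [hbe]; push_cast; ring
  -- the middle pair
  have e1 : -A + q = (β : ℂ) * (B - A) := by rw [hq, hbc]; ring
  have e2 : B - q = (α : ℂ) * (B - A) := by rw [hq, hbc]; ring
  have m1 : H (-A + q) + H (B - q) = H (B - A) := by
    rw [e1, e2, hsm β hβ, hsm α hα, hbe]; ring
  have m2 : H (B - A) ≤ H (-A + (s : ℂ) * q) + H (B - (s : ℂ) * q) := by
    have h := hadd (-A + (s : ℂ) * q) (B - (s : ℂ) * q)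
    have e : (-A + (s : ℂ) * q) + (B - (s : ℂ) * q) = B - A := by ring
    rwa [e] at h
  -- the outer pair
  have hx1 : 0 ≤ (1 + α + s * β) / (1 + s) := by positivity
  have hy1 : 0 ≤ β * (s - 1) / (1 + s) := by
    apply div_nonneg _ h1s.le
    exact mul_nonneg hβ (by linarith)
  have hx2 : 0 ≤ α * (s - 1) / (1 + s) := by
    apply div_nonneg _ h1s.le
    exact mul_nonneg hα (by linarith)
  have hy2 : 0 ≤ (1 + β + s * α) / (1 + s) := by positivity
  have e3 : A + q = (((1 + α + s * β) / (1 + s) : ℝ) : ℂ) * (A + (s : ℂ) * q) +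
      ((β * (s - 1) / (1 + s) : ℝ) : ℂ) * (-B - (s : ℂ) * q) := by
    push_cast
    rw [div_mul_eq_mul_div, div_mul_eq_mul_div, ← add_div, eq_div_iff h1c, hq, hbc]
    ring
  have e4 : -B - q = ((α * (s - 1) / (1 + s) : ℝ) : ℂ) * (A + (s : ℂ) * q) +
      (((1 + β + s * α) / (1 + s) : ℝ) : ℂ) * (-B - (s : ℂ) * q) := by
    push_cast
    rw [div_mul_eq_mul_div, div_mul_eq_mul_div, ← add_div, eq_div_iff h1c, hq, hbc]
    ring
  have n1 : H (A + q) ≤ (1 + α + s * β) / (1 + s) * H (A + (s : ℂ) * q) +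
      β * (s - 1) / (1 + s) * H (-B - (s : ℂ) * q) := by
    have h := sub_comb hadd hsm hx1 hy1 (A + (s : ℂ) * q) (-B - (s : ℂ) * q)
    rwa [← e3] at h
  have n2 : H (-B - q) ≤ α * (s - 1) / (1 + s) * H (A + (s : ℂ) * q) +
      (1 + β + s * α) / (1 + s) * H (-B - (s : ℂ) * q) := by
    have h := sub_comb hadd hsm hx2 hy2 (A + (s : ℂ) * q) (-B - (s : ℂ) * q)
    rwa [← e4] at h
  have k1 : (1 + α + s * β) / (1 + s) + α * (s - 1) / (1 + s) = 1 := by
    rw [← add_div, div_eq_one_iff_eq h1s.ne', hbe]; ring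
  have k2 : β * (s - 1) / (1 + s) + (1 + β + s * α) / (1 + s) = 1 := by
    rw [← add_div, div_eq_one_iff_eq h1s.ne', hbe]; ring
  have n3 : H (A + q) + H (-B - q) ≤ H (A + (s : ℂ) * q) + H (-B - (s : ℂ) * q) := by
    calc H (A + q) + H (-B - q)
        ≤ ((1 + α + s * β) / (1 + s) * H (A + (s : ℂ) * q) +
            β * (s - 1) / (1 + s) * H (-B - (s : ℂ) * q)) +
          (α * (s - 1) / (1 + s) * H (A + (s : ℂ) * q) +
            (1 + β + s * α) / (1 + s) * H (-B - (s : ℂ) * q)) := add_le_add n1 n2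
      _ = ((1 + α + s * β) / (1 + s) + α * (s - 1) / (1 + s)) * H (A + (s : ℂ) * q) +
          (β * (s - 1) / (1 + s) + (1 + β + s * α) / (1 + s)) * H (-B - (s : ℂ) * q) := by ring
      _ = H (A + (s : ℂ) * q) + H (-B - (s : ℂ) * q) := by rw [k1, k2]; ring
  unfold T4
  linarith

/-- nonnegative coordinates -/
theorem core' (hadd : ∀ x y, H (x + y) ≤ H x + H y)
    (hsm : ∀ c : ℝ, 0 ≤ c → ∀ x, H ((c : ℂ) * x) = c * H x)
    (A B : ℂ) {x y : ℝ} (hx : 0 ≤ x) (hy : 0 ≤ y) (hxy : 1 < x + y) :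
    T4 H A B (((x / (x + y) : ℝ) : ℂ) * A + ((y / (x + y) : ℝ) : ℂ) * B) ≤
      T4 H A B ((x : ℂ) * A + (y : ℂ) * B) := by
  have hs : (0 : ℝ) < x + y := by linarith
  have hsc : ((x : ℂ) + (y : ℂ)) ≠ 0 := by
    have : ((x + y : ℝ) : ℂ) ≠ 0 := by exact_mod_cast hs.ne'
    simpa using this
  have h := core hadd hsm A B (α := x / (x + y)) (β := y / (x + y)) (s := x + y)
    (by positivity) (by positivity) (by field_simp) hxy.le
  have e : ((x + y : ℝ) : ℂ) * (((x / (x + y) : ℝ) : ℂ) * A + ((y / (x + y) : ℝ) : ℂ) * B) =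
      (x : ℂ) * A + (y : ℂ) * B := by
    push_cast
    field_simp
  rwa [e] at h

/-- the general case -/
theorem core2 (hadd : ∀ x y, H (x + y) ≤ H x + H y)
    (hsm : ∀ c : ℝ, 0 ≤ c → ∀ x, H ((c : ℂ) * x) = c * H x)
    (A B : ℂ) (x y : ℝ) (hxy : 1 < |x| + |y|) :
    ∃ x' y' : ℝ, |x'| + |y'| ≤ 1 ∧
      T4 H A B ((x' : ℂ) * A + (y' : ℂ) * B) ≤ T4 H A B ((x : ℂ) * A + (y : ℂ) * B) := by
  have hs : (0 : ℝ) < |x| + |y| := by linarith
  have key : ∀ ε δ : ℝ, |ε| = 1 → |δ| = 1 →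
      ε * |x| = x → δ * |y| = y →
      (T4 H ((ε : ℂ) * A) ((δ : ℂ) * B) = T4 H A B) →
      ∃ x' y' : ℝ, |x'| + |y'| ≤ 1 ∧
      T4 H A B ((x' : ℂ) * A + (y' : ℂ) * B) ≤ T4 H A B ((x : ℂ) * A + (y : ℂ) * B) := by
    intro ε δ hε hδ hx hy hT
    refine ⟨ε * (|x| / (|x| + |y|)), δ * (|y| / (|x| + |y|)), ?_, ?_⟩
    · rw [abs_mul, abs_mul, hε, hδ, one_mul, one_mul, abs_div, abs_div, abs_abs, abs_abs,
        abs_of_pos hs, ← add_div, div_self hs.ne']
    · have h := core' hadd hsm ((ε : ℂ) * A) ((δ : ℂ) * B) (abs_nonneg x) (abs_nonneg y) hxy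
      rw [hT] at h
      have e1 : (((|x| / (|x| + |y|) : ℝ) : ℂ)) * ((ε : ℂ) * A) +
          (((|y| / (|x| + |y|) : ℝ) : ℂ)) * ((δ : ℂ) * B) =
          ((ε * (|x| / (|x| + |y|)) : ℝ) : ℂ) * A + ((δ * (|y| / (|x| + |y|)) : ℝ) : ℂ) * B := by
        push_cast; ring
      have e2 : ((|x| : ℝ) : ℂ) * ((ε : ℂ) * A) + ((|y| : ℝ) : ℂ) * ((δ : ℂ) * B) =
          (x : ℂ) * A + (y : ℂ) * B := by
        rw [← mul_assoc, ← mul_assoc, ← Complex.ofReal_mul, ← Complex.ofReal_mul,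
          mul_comm |x| ε, mul_comm |y| δ, hx, hy]
      rwa [e1, e2] at h
  rcases le_or_gt 0 x with hx | hx <;> rcases le_or_gt 0 y with hy | hy
  · refine key 1 1 (by simp) (by simp) (by rw [abs_of_nonneg hx, one_mul])
      (by rw [abs_of_nonneg hy, one_mul]) ?_
    simp
  · refine key 1 (-1) (by simp) (by simp) (by rw [abs_of_nonneg hx, one_mul])
      (by rw [abs_of_neg hy]; ring) ?_
    funext q
    have := T4_negB (H := H) A B q
    simpa using this
  · refine key (-1) 1 (by simp) (by simp) (by rw [abs_of_neg hx]; ring)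
      (by rw [abs_of_nonneg hy, one_mul]) ?_
    funext q
    have := T4_negA (H := H) A B q
    simpa using this
  · refine key (-1) (-1) (by simp) (by simp) (by rw [abs_of_neg hx]; ring)
      (by rw [abs_of_neg hy]; ring) ?_
    funext q
    have h1 := T4_negA (H := H) A (-B) q
    have h2 := T4_negB (H := H) A B q
    simpa [h2] using h1

end Sublinear

/-! ## the support functional is sublinear -/

theorem sp_bdd {K : Set ℂ} (hK : IsBody K) (p : ℂ) :
    BddAbove ((fun z : ℂ => (z * (starRingEnd ℂ) p).re) '' K) := by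
  have hc : Continuous (fun z : ℂ => (z * (starRingEnd ℂ) p).re) := by fun_prop
  exact (hK.2.1.image hc).bddAbove

theorem body_nonempty {K : Set ℂ} (hK : IsBody K) : K.Nonempty :=
  hK.2.2.mono interior_subset

theorem le_sp {K : Set ℂ} (hK : IsBody K) {z : ℂ} (hz : z ∈ K) (p : ℂ) :
    (z * (starRingEnd ℂ) p).re ≤ sp K p :=
  le_csSup (sp_bdd hK p) ⟨z, hz, rfl⟩

theorem sp_add {K : Set ℂ} (hK : IsBody K) (x y : ℂ) : sp K (x + y) ≤ sp K x + sp K y := by
  refine csSup_le ((body_nonempty hK).image _) ?_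
  rintro r ⟨z, hz, rfl⟩
  have h1 := le_sp hK hz x
  have h2 := le_sp hK hz y
  have e : (z * (starRingEnd ℂ) (x + y)).re =
      (z * (starRingEnd ℂ) x).re + (z * (starRingEnd ℂ) y).re := by
    rw [map_add, mul_add, Complex.add_re]
  simp only [e]
  linarith

theorem sp_smul_le {K : Set ℂ} (hK : IsBody K) {c : ℝ} (hc : 0 ≤ c) (x : ℂ) :
    sp K ((c : ℂ) * x) ≤ c * sp K x := by
  refine csSup_le ((body_nonempty hK).image _) ?_
  rintro r ⟨z, hz, rfl⟩
  have h1 := le_sp hK hz x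
  have e : (z * (starRingEnd ℂ) ((c : ℂ) * x)).re = c * (z * (starRingEnd ℂ) x).re := by
    rw [map_mul, Complex.conj_ofReal, mul_left_comm, Complex.re_ofReal_mul]
  simp only [e]
  exact mul_le_mul_of_nonneg_left h1 hc

theorem sp_zero {K : Set ℂ} (hK : IsBody K) : sp K 0 = 0 := by
  obtain ⟨z, hz⟩ := body_nonempty hK
  have h1 := le_sp hK hz 0
  have h2 := sp_smul_le hK (le_refl (0 : ℝ)) 0
  simp at h1 h2
  linarith

theorem sp_smul {K : Set ℂ} (hK : IsBody K) (c : ℝ) (hc : 0 ≤ c) (x : ℂ) :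
    sp K ((c : ℂ) * x) = c * sp K x := by
  rcases hc.eq_or_lt with h | h
  · rw [← h]; simp [sp_zero hK]
  · refine le_antisymm (sp_smul_le hK hc x) ?_
    have hi : (0 : ℝ) ≤ c⁻¹ := by positivity
    have h1 := sp_smul_le hK hi ((c : ℂ) * x)
    have hcc : (c : ℂ) ≠ 0 := by exact_mod_cast h.ne'
    have e : ((c⁻¹ : ℝ) : ℂ) * ((c : ℂ) * x) = x := by
      push_cast
      rw [← mul_assoc, inv_mul_cancel₀ hcc, one_mul]
    rw [e] at h1
    have h2 := mul_le_mul_of_nonneg_left h1 hc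
    rwa [← mul_assoc, mul_inv_cancel₀ h.ne', one_mul] at h2

/-! ## coordinates in the basis `f1 b 0`, `f2 b 0` -/

theorem om_re : om.re = 1 / 2 := by
  unfold om; rw [ee_re, Real.cos_pi_div_three]

theorem om_im : om.im = Real.sqrt 3 / 2 := by
  unfold om; rw [ee_im, Real.sin_pi_div_three]

theorem cr_AB (b : ℂ) : cr (f1 b 0) (f2 b 0) = Real.sqrt 3 / 2 * (1 - ‖b‖ ^ 2) := by
  have h3 : Real.sqrt 3 ^ 2 = 3 := Real.sq_sqrt (by norm_num)
  have hb : ‖b‖ ^ 2 = b.re ^ 2 + b.im ^ 2 := by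
    rw [← Complex.normSq_eq_norm_sq, Complex.normSq_apply]; ring
  rw [hb]
  have o2r : (om ^ 2).re = -(1 / 2) := by
    rw [sq, Complex.mul_re, om_re, om_im]
    nlinarith [h3]
  have o2i : (om ^ 2).im = Real.sqrt 3 / 2 := by
    rw [sq, Complex.mul_im, om_re, om_im]; ring
  have c2 : (starRingEnd ℂ) om ^ 2 = (starRingEnd ℂ) (om ^ 2) := by rw [map_pow]
  have a1 : (f1 b 0).re = 1 / 2 + (1 / 2 * b.re + Real.sqrt 3 / 2 * b.im) := by
    unfold f1
    simp only [add_zero, Complex.add_re, Complex.mul_re, Complex.conj_re, Complex.conj_im,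
      om_re, om_im]
    ring
  have a2 : (f1 b 0).im = Real.sqrt 3 / 2 + (1 / 2 * b.im - Real.sqrt 3 / 2 * b.re) := by
    unfold f1
    simp only [add_zero, Complex.add_im, Complex.mul_im, Complex.conj_re, Complex.conj_im,
      om_re, om_im]
    ring
  have b1 : (f2 b 0).re = -(1 / 2) + (-(1 / 2) * b.re + Real.sqrt 3 / 2 * b.im) := by
    unfold f2
    rw [c2]
    simp only [sub_zero, Complex.add_re, Complex.mul_re, Complex.conj_re, Complex.conj_im,
      o2r, o2i]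
    ring
  have b2 : (f2 b 0).im = Real.sqrt 3 / 2 + (-(1 / 2) * b.im - Real.sqrt 3 / 2 * b.re) := by
    unfold f2
    rw [c2]
    simp only [sub_zero, Complex.add_im, Complex.mul_im, Complex.conj_re, Complex.conj_im,
      o2r, o2i]
    ring
  unfold cr
  rw [a1, a2, b1, b2]
  ring

theorem coords {A B : ℂ} (h : cr A B ≠ 0) (p : ℂ) :
    p = ((cr p B / cr A B : ℝ) : ℂ) * A + ((cr A p / cr A B : ℝ) : ℂ) * B := by
  apply Complex.ext
  · rw [Complex.add_re, Complex.re_ofReal_mul, Complex.re_ofReal_mul]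
    field_simp
    unfold cr
    ring
  · rw [Complex.add_im, Complex.im_ofReal_mul, Complex.im_ofReal_mul]
    field_simp
    unfold cr
    ring

/-! ## the functional -/

theorem Psi_eq (K : Set ℂ) (t : ℝ) (b p : ℂ) :
    Psi K t b p = (1 / 3) * (sp K (ee t * f0 b) + sp K (-(ee t * f0 b)) +
      T4 (fun z => sp K (ee t * z)) (f1 b 0) (f2 b 0) p) + ‖b‖ ^ 2 := by
  have e1 : f1 b p = f1 b 0 + p := by unfold f1; ring
  have e2 : f2 b p = f2 b 0 - p := by unfold f2; ring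
  have e3 : -(ee t * f1 b (-p)) = ee t * (-f1 b 0 + p) := by unfold f1; ring
  have e4 : -(ee t * f2 b (-p)) = ee t * (-f2 b 0 - p) := by unfold f2; ring
  unfold Psi T4
  rw [e3, e4, e1, e2]
  ring

/-- **MODULE RGN.** -/
theorem hRGN : StRgn := by
  intro K t b p hK hb
  have hne : cr (f1 b 0) (f2 b 0) ≠ 0 := by
    rw [cr_AB]
    have h3 : Real.sqrt 3 / 2 ≠ 0 := by positivity
    refine mul_ne_zero h3 ?_
    intro h
    apply hb
    have h1 : ‖b‖ ^ 2 = 1 := by linarith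
    have h0 := norm_nonneg b
    nlinarith
  have hp := coords hne p
  by_cases hxy : |cr p (f2 b 0) / cr (f1 b 0) (f2 b 0)| +
      |cr (f1 b 0) p / cr (f1 b 0) (f2 b 0)| ≤ 1
  · exact ⟨p, ⟨_, _, hxy, hp⟩, le_refl _⟩
  · rw [not_le] at hxy
    have hadd : ∀ x y : ℂ, (fun z => sp K (ee t * z)) (x + y) ≤
        (fun z => sp K (ee t * z)) x + (fun z => sp K (ee t * z)) y := by
      intro x y
      simp only [mul_add]
      exact sp_add hK _ _
    have hsm : ∀ c : ℝ, 0 ≤ c → ∀ x : ℂ, (fun z => sp K (ee t * z)) ((c : ℂ) * x) =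
        c * (fun z => sp K (ee t * z)) x := by
      intro c hc x
      simp only [mul_left_comm (ee t)]
      exact sp_smul hK c hc _
    obtain ⟨x', y', h1, h2⟩ := core2 (H := fun z => sp K (ee t * z)) hadd hsm (f1 b 0) (f2 b 0) _ _ hxy
    rw [← hp] at h2
    refine ⟨(x' : ℂ) * f1 b 0 + (y' : ℂ) * f2 b 0, ⟨x', y', h1, rfl⟩, ?_⟩
    rw [Psi_eq, Psi_eq K t b p]
    linarith

end Pool.Agent.Helper16.RC
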